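import Mathlib
import Pool.Agent.H45.Lib.S8.H398R2.BV1
import Pool.Agent.H45.Lib.S8.Helper112.Bilinear
import Pool.Agent.H45.Lib.S8.Helper112.TypeI

/-! Separation of variables with the logarithmic weight. -/

open Finset MeasureTheory

namespace Pool.Agent.H398R2.BV

open Pool.Agent.Helper112 Pool.Agent.Helper112.BLB

/-- log-weighted twisted sum -/
noncomputable def TL (X : ℝ) (f : ℕ) (ψ : DirichletCharacter ℂ f) (g : ℕ → ℝ) : ℂ :=
  ∑ n ∈ Icc 1 ⌊X⌋₊, (g n : ℂ) * ψ (n : ZMod f) * ((Real.log (X / n) : ℝ) : ℂ)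

/-- kernel -/
noncomputable def kern (X : ℝ) (m n : ℕ) (t : ℝ) : ℝ :=
  Set.indicator (Set.Icc (m:ℝ) (X / n)) (fun t => t⁻¹) t

theorem kern_integrable (X : ℝ) (m n : ℕ) :
    IntegrableOn (kern X m n) (Set.Icc 1 X) := by
  have h1 : IntegrableOn (fun t : ℝ => t⁻¹) (Set.Icc 1 X) := by
    apply ContinuousOn.integrableOn_Icc
    apply ContinuousOn.inv₀ continuousOn_id
    intro x hx
    have := hx.1
    simp only [id]
    linarith
  exact h1.indicator measurableSet_Icc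

theorem kern_integral (X : ℝ) (m n : ℕ) (hm : 1 ≤ m) (hn : 1 ≤ n) (hX : 1 ≤ X) :
    ∫ t in Set.Icc 1 X, kern X m n t =
      if ((m * n : ℕ) : ℝ) ≤ X then Real.log (X / ((m * n : ℕ) : ℝ)) else 0 := by
  have hm' : (1:ℝ) ≤ m := by exact_mod_cast hm
  have hn' : (1:ℝ) ≤ n := by exact_mod_cast hn
  have hm0 : (0:ℝ) < m := by linarith
  have hn0 : (0:ℝ) < n := by linarith
  unfold kern
  rw [setIntegral_indicator measurableSet_Icc]
  have hsub : Set.Icc (1:ℝ) X ∩ Set.Icc (m:ℝ) (X / n) = Set.Icc (m:ℝ) (X / n) := by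
    apply Set.inter_eq_right.mpr
    apply Set.Icc_subset_Icc hm'
    exact div_le_self (by linarith) hn'
  rw [hsub]
  push_cast
  have hiff : (m:ℝ) * n ≤ X ↔ (m:ℝ) ≤ X / n := (le_div_iff₀ hn0).symm
  split_ifs with h
  · have h2 := hiff.mp h
    rw [integral_Icc_eq_integral_Ioc, ← intervalIntegral.integral_of_le h2, integral_inv_of_pos hm0]
    · congr 1
      field_simp
    · linarith
  · have h2 : ¬ (m:ℝ) ≤ X / n := fun h' => h (hiff.mpr h')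
    rw [Set.Icc_eq_empty h2]
    simp

theorem A_floor (X t : ℝ) (α : ℕ → ℝ) (f : ℕ) (ψ : DirichletCharacter ℂ f) (h1 : 1 ≤ t)
    (h2 : t ≤ X) :
    A ⌊t⌋₊ α f ψ = ∑ b ∈ Icc 1 ⌊X⌋₊, if (b:ℝ) ≤ t then (α b : ℂ) * ψ (b : ZMod f) else 0 := by
  unfold A
  rw [← sum_filter]
  apply sum_congr _ (fun _ _ => rfl)
  ext b
  simp only [mem_filter, mem_Icc]
  constructor
  · rintro ⟨h3, h4⟩
    exact ⟨⟨h3, h4.trans (Nat.floor_mono h2)⟩, (Nat.le_floor_iff (by linarith)).mp h4⟩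
  · rintro ⟨⟨h3, _⟩, h4⟩
    exact ⟨h3, Nat.le_floor h4⟩

theorem prod_eq (X t : ℝ) (α β : ℕ → ℝ) (f : ℕ) (ψ : DirichletCharacter ℂ f) (h1 : 1 ≤ t)
    (h2 : t ≤ X) :
    A ⌊t⌋₊ α f ψ * A ⌊X / t⌋₊ β f ψ * ((t⁻¹ : ℝ) : ℂ) =
      ∑ c ∈ Icc 1 ⌊X⌋₊, ∑ b ∈ Icc 1 ⌊X⌋₊,
        ((α b : ℂ) * ψ (b : ZMod f) * ((β c : ℂ) * ψ (c : ZMod f))) * ((kern X b c t : ℝ) : ℂ) := by
  have ht0 : 0 < t := by linarith
  have h3 : 1 ≤ X / t := by rw [le_div_iff₀ ht0]; linarith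
  have h4 : X / t ≤ X := div_le_self (by linarith) h1
  rw [A_floor X t α f ψ h1 h2, A_floor X (X / t) β f ψ h3 h4, mul_comm (∑ b ∈ _, _) (∑ b ∈ _, _),
    sum_mul_sum, sum_mul]
  apply sum_congr rfl
  intro c hc
  rw [mem_Icc] at hc
  rw [sum_mul]
  apply sum_congr rfl
  intro b _
  have hc0 : (0:ℝ) < c := by
    have : 0 < c := by omega
    exact_mod_cast this
  have hiff : (c:ℝ) ≤ X / t ↔ t ≤ X / c := by
    rw [le_div_iff₀ ht0, le_div_iff₀ hc0, mul_comm]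
  unfold kern
  by_cases hb : (b:ℝ) ≤ t
  · by_cases hct : (c:ℝ) ≤ X / t
    · rw [if_pos hb, if_pos hct, Set.indicator_of_mem (Set.mem_Icc.mpr ⟨hb, hiff.mp hct⟩)]
      ring
    · rw [if_neg hct, Set.indicator_of_notMem (fun h => hct (hiff.mpr (Set.mem_Icc.mp h).2))]
      simp
  · rw [if_neg hb, Set.indicator_of_notMem (fun h => hb (Set.mem_Icc.mp h).1)]
    simp

theorem TL_conv (X : ℝ) (hX : 1 ≤ X) (f : ℕ) (ψ : DirichletCharacter ℂ f) (α β : ℕ → ℝ) :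
    TL X f ψ (fun n => ∑ i ∈ n.divisorsAntidiagonal, α i.1 * β i.2) =
      ∑ c ∈ Icc 1 ⌊X⌋₊, ∑ b ∈ Icc 1 ⌊X⌋₊,
        ((α b : ℂ) * ψ (b : ZMod f) * ((β c : ℂ) * ψ (c : ZMod f))) *
          ((if ((b * c : ℕ) : ℝ) ≤ X then Real.log (X / ((b * c : ℕ) : ℝ)) else 0 : ℝ) : ℂ) := by
  have h1 : TL X f ψ (fun n => ∑ i ∈ n.divisorsAntidiagonal, α i.1 * β i.2) =
      ∑ n ∈ Icc 1 ⌊X⌋₊, ∑ i ∈ n.divisorsAntidiagonal,
        ((α i.1 : ℂ) * ψ (i.1 : ZMod f) * ((β i.2 : ℂ) * ψ (i.2 : ZMod f))) *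
          ((Real.log (X / ((i.1 * i.2 : ℕ) : ℝ)) : ℝ) : ℂ) := by
    unfold TL
    apply sum_congr rfl
    intro n _
    rw [Complex.ofReal_sum, sum_mul, sum_mul]
    apply sum_congr rfl
    intro i hi
    rw [Nat.mem_divisorsAntidiagonal] at hi
    rw [← hi.1]
    push_cast
    rw [map_mul]
    ring
  rw [h1, hyperC ⌊X⌋₊ (fun b c => ((α b : ℂ) * ψ (b : ZMod f) * ((β c : ℂ) * ψ (c : ZMod f))) *
          ((Real.log (X / ((b * c : ℕ) : ℝ)) : ℝ) : ℂ))]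
  apply sum_congr rfl
  intro c hc
  rw [mem_Icc] at hc
  have hc0 : 0 < c := by omega
  have hiff : ∀ b : ℕ, b ≤ ⌊X⌋₊ / c ↔ ((b * c : ℕ) : ℝ) ≤ X := by
    intro b
    rw [Nat.le_div_iff_mul_le hc0, Nat.le_floor_iff (by linarith)]
  have hset : Icc 1 (⌊X⌋₊ / c) = (Icc 1 ⌊X⌋₊).filter (fun b => ((b * c : ℕ) : ℝ) ≤ X) := by
    ext b
    simp only [mem_filter, mem_Icc]
    constructor
    · rintro ⟨h3, h4⟩
      exact ⟨⟨h3, h4.trans (Nat.div_le_self _ _)⟩, (hiff b).mp h4⟩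
    · rintro ⟨⟨h3, _⟩, h4⟩
      exact ⟨h3, (hiff b).mpr h4⟩
  rw [hset, sum_filter]
  apply sum_congr rfl
  intro b _
  split_ifs
  · rfl
  · simp

/-- separation identity -/
theorem TL_sep (X : ℝ) (hX : 1 ≤ X) (f : ℕ) (ψ : DirichletCharacter ℂ f) (α β : ℕ → ℝ) :
    TL X f ψ (fun n => ∑ i ∈ n.divisorsAntidiagonal, α i.1 * β i.2) =
      ∫ t in Set.Icc 1 X, A ⌊t⌋₊ α f ψ * A ⌊X / t⌋₊ β f ψ * ((t⁻¹ : ℝ) : ℂ) := by
  rw [TL_conv X hX]
  have h1 : ∫ t in Set.Icc 1 X, A ⌊t⌋₊ α f ψ * A ⌊X / t⌋₊ β f ψ * ((t⁻¹ : ℝ) : ℂ) =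
      ∫ t in Set.Icc 1 X, ∑ c ∈ Icc 1 ⌊X⌋₊, ∑ b ∈ Icc 1 ⌊X⌋₊,
        ((α b : ℂ) * ψ (b : ZMod f) * ((β c : ℂ) * ψ (c : ZMod f))) * ((kern X b c t : ℝ) : ℂ) := by
    apply setIntegral_congr_fun measurableSet_Icc
    intro t ht
    exact prod_eq X t α β f ψ ht.1 ht.2
  rw [h1, integral_finset_sum]
  · apply sum_congr rfl
    intro c hc
    rw [integral_finset_sum]
    · apply sum_congr rfl
      intro b hb
      rw [mem_Icc] at hb hc
      rw [integral_const_mul, integral_complex_ofReal, kern_integral X b c hb.1 hc.1 hX]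
    · intro b _
      exact ((kern_integrable X b c).ofReal).const_mul _
  · intro c _
    apply integrable_finset_sum
    intro b _
    exact ((kern_integrable X b c).ofReal).const_mul _

theorem A_bound (X : ℝ) (α : ℕ → ℝ) (f : ℕ) (ψ : DirichletCharacter ℂ f) (k : ℕ)
    (hk : k ≤ ⌊X⌋₊) : ‖A k α f ψ‖ ≤ ∑ b ∈ Icc 1 ⌊X⌋₊, |α b| := by
  unfold A
  refine (norm_sum_le _ _).trans ?_
  refine le_trans ?_ (sum_le_sum_of_subset_of_nonneg (Icc_subset_Icc_right hk)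
    (fun _ _ _ => abs_nonneg _))
  apply sum_le_sum
  intro b _
  rw [norm_mul, Complex.norm_real, Real.norm_eq_abs]
  have := ψ.norm_le_one (b : ZMod f)
  have h2 := abs_nonneg (α b)
  nlinarith

theorem prod_integrable (X : ℝ) (f : ℕ) (ψ : DirichletCharacter ℂ f) (α β : ℕ → ℝ) :
    IntegrableOn (fun t : ℝ => ‖A ⌊t⌋₊ α f ψ‖ * ‖A ⌊X / t⌋₊ β f ψ‖ * t⁻¹) (Set.Icc 1 X) := by
  have hmeas : Measurable (fun t : ℝ => ‖A ⌊t⌋₊ α f ψ‖ * ‖A ⌊X / t⌋₊ β f ψ‖ * t⁻¹) := by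
    have h1 : Measurable (fun t : ℝ => ‖A ⌊t⌋₊ α f ψ‖) :=
      (measurable_from_top (f := fun k : ℕ => ‖A k α f ψ‖)).comp Nat.measurable_floor
    have h2 : Measurable (fun t : ℝ => ‖A ⌊X / t⌋₊ β f ψ‖) :=
      (measurable_from_top (f := fun k : ℕ => ‖A k β f ψ‖)).comp
        (Nat.measurable_floor.comp (measurable_const.div measurable_id))
    exact (h1.mul h2).mul measurable_inv
  apply Measure.integrableOn_of_bounded (M := (∑ b ∈ Icc 1 ⌊X⌋₊, |α b|) *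
      (∑ b ∈ Icc 1 ⌊X⌋₊, |β b|))
  · exact measure_Icc_lt_top.ne
  · exact hmeas.aestronglyMeasurable
  · rw [ae_restrict_iff' measurableSet_Icc]
    apply Filter.Eventually.of_forall
    intro t ht
    have h1 := ht.1
    have h2 := ht.2
    have ht0 : 0 < t := by linarith
    rw [Real.norm_eq_abs, abs_of_nonneg (by positivity)]
    have b1 := A_bound X α f ψ ⌊t⌋₊ (Nat.floor_mono h2)
    have b2 := A_bound X β f ψ ⌊X / t⌋₊ (Nat.floor_mono (div_le_self (by linarith) h1))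
    have b3 : t⁻¹ ≤ 1 := inv_le_one_of_one_le₀ h1
    calc ‖A ⌊t⌋₊ α f ψ‖ * ‖A ⌊X / t⌋₊ β f ψ‖ * t⁻¹ ≤
        ‖A ⌊t⌋₊ α f ψ‖ * ‖A ⌊X / t⌋₊ β f ψ‖ * 1 :=
          mul_le_mul_of_nonneg_left b3 (by positivity)
      _ ≤ _ := by
          rw [mul_one]
          exact mul_le_mul b1 b2 (norm_nonneg _) (sum_nonneg fun _ _ => abs_nonneg _)

theorem TL_le (X : ℝ) (hX : 1 ≤ X) (f : ℕ) (ψ : DirichletCharacter ℂ f) (α β : ℕ → ℝ) :
    ‖TL X f ψ (fun n => ∑ i ∈ n.divisorsAntidiagonal, α i.1 * β i.2)‖ ≤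
      ∫ t in Set.Icc 1 X, ‖A ⌊t⌋₊ α f ψ‖ * ‖A ⌊X / t⌋₊ β f ψ‖ * t⁻¹ := by
  rw [TL_sep X hX]
  refine (norm_integral_le_integral_norm _).trans (le_of_eq ?_)
  apply setIntegral_congr_fun measurableSet_Icc
  intro t ht
  have h1 := ht.1
  have ht0 : 0 < t := by linarith
  simp only [norm_mul, Complex.norm_real, Real.norm_eq_abs]
  rw [abs_of_nonneg (a := t⁻¹) (by positivity)]

open Classical in
/-- sum over primitive characters and moduli -/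
theorem sum_TL_le (X : ℝ) (hX : 1 ≤ X) (S : Finset ℕ) (w : ℕ → ℝ) (hw : ∀ f, 0 ≤ w f)
    (α β : ℕ → ℝ) (M : ℝ)
    (hM : ∀ t : ℝ, 1 ≤ t → t ≤ X → ∑ f ∈ S, w f * P ⌊t⌋₊ ⌊X / t⌋₊ α β f ≤ M) :
    ∑ f ∈ S, w f * ∑ ψ ∈ (univ : Finset (DirichletCharacter ℂ f)).filter (fun ψ => ψ.IsPrimitive),
      ‖TL X f ψ (fun n => ∑ i ∈ n.divisorsAntidiagonal, α i.1 * β i.2)‖ ≤ M * Real.log X := by
  have h1 : ∑ f ∈ S, w f *
      ∑ ψ ∈ (univ : Finset (DirichletCharacter ℂ f)).filter (fun ψ => ψ.IsPrimitive),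
      ‖TL X f ψ (fun n => ∑ i ∈ n.divisorsAntidiagonal, α i.1 * β i.2)‖ ≤
      ∑ f ∈ S, w f *
      ∑ ψ ∈ (univ : Finset (DirichletCharacter ℂ f)).filter (fun ψ => ψ.IsPrimitive),
      ∫ t in Set.Icc 1 X, ‖A ⌊t⌋₊ α f ψ‖ * ‖A ⌊X / t⌋₊ β f ψ‖ * t⁻¹ := by
    apply sum_le_sum
    intro f _
    apply mul_le_mul_of_nonneg_left _ (hw f)
    apply sum_le_sum
    intro ψ _
    exact TL_le X hX f ψ α β
  refine h1.trans ?_
  have h2 : ∑ f ∈ S, w f *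
      ∑ ψ ∈ (univ : Finset (DirichletCharacter ℂ f)).filter (fun ψ => ψ.IsPrimitive),
      ∫ t in Set.Icc 1 X, ‖A ⌊t⌋₊ α f ψ‖ * ‖A ⌊X / t⌋₊ β f ψ‖ * t⁻¹ =
      ∫ t in Set.Icc 1 X, ∑ f ∈ S, w f *
      ∑ ψ ∈ (univ : Finset (DirichletCharacter ℂ f)).filter (fun ψ => ψ.IsPrimitive),
        ‖A ⌊t⌋₊ α f ψ‖ * ‖A ⌊X / t⌋₊ β f ψ‖ * t⁻¹ := by
    rw [integral_finset_sum]
    · apply sum_congr rfl
      intro f _
      rw [integral_const_mul, integral_finset_sum]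
      intro ψ _
      exact prod_integrable X f ψ α β
    · intro f _
      apply Integrable.const_mul
      apply integrable_finset_sum
      intro ψ _
      exact prod_integrable X f ψ α β
  rw [h2]
  have hinv : IntegrableOn (fun t : ℝ => M * t⁻¹) (Set.Icc 1 X) := by
    apply Integrable.const_mul
    apply ContinuousOn.integrableOn_Icc
    apply ContinuousOn.inv₀ continuousOn_id
    intro x hx
    have := hx.1
    simp only [id]
    linarith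
  have h3 : ∫ t in Set.Icc 1 X, M * t⁻¹ = M * Real.log X := by
    rw [integral_const_mul, integral_Icc_eq_integral_Ioc, ← intervalIntegral.integral_of_le hX,
      integral_inv_of_pos (by norm_num) (by linarith)]
    simp
  rw [← h3]
  apply setIntegral_mono_on _ hinv measurableSet_Icc
  · intro t ht
    have h1 := ht.1
    have ht0 : 0 < t := by linarith
    have := hM t ht.1 ht.2
    calc ∑ f ∈ S, w f *
      ∑ ψ ∈ (univ : Finset (DirichletCharacter ℂ f)).filter (fun ψ => ψ.IsPrimitive),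
        ‖A ⌊t⌋₊ α f ψ‖ * ‖A ⌊X / t⌋₊ β f ψ‖ * t⁻¹ =
        (∑ f ∈ S, w f * P ⌊t⌋₊ ⌊X / t⌋₊ α β f) * t⁻¹ := by
          rw [sum_mul]
          apply sum_congr rfl
          intro f _
          unfold P
          rw [← sum_mul]
          ring
      _ ≤ M * t⁻¹ := mul_le_mul_of_nonneg_right this (by positivity)
  · apply integrable_finset_sum
    intro f _
    apply Integrable.const_mul
    apply integrable_finset_sum
    intro ψ _
    exact prod_integrable X f ψ α β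

end Pool.Agent.H398R2.BV
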