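import Mathlib
import Pool.Agent.H45.Lib.S8.H398R2.BV2
import Pool.Agent.H45.Lib.S8.Erdos456.LBound

/-! Type I sums. -/

open Finset

namespace Pool.Agent.H398R2.BV

open Pool.Agent.Helper112 Pool.Agent.Helper112.TI Pool.Agent.Helper112.TII

theorem norm_Icc_le {f : ℕ} (hf : 2 ≤ f) (ψ : DirichletCharacter ℂ f) (hψ : ψ ≠ 1) (n : ℕ) :
    ‖∑ i ∈ Icc 1 n, ψ (i : ZMod f)‖ ≤ f := by
  have : NeZero f := ⟨by omega⟩
  have h0 : ψ ((0 : ℕ) : ZMod f) = 0 := by
    apply MulChar.map_nonunit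
    intro h
    rw [ZMod.isUnit_iff_coprime] at h
    simp at h
    omega
  have h1 := Erdos456.norm_partial_le ψ hψ (n + 1)
  have h2 : ∑ i ∈ range (n + 1), ψ (i : ZMod f) = ∑ i ∈ Icc 1 n, ψ (i : ZMod f) := by
    rw [sum_range_succ', h0, add_zero]
    rw [← sum_image (f := fun i : ℕ => ψ (i : ZMod f)) (s := range n) (g := fun i => i + 1)
      (by intro a _ b _ h; simpa using h)]
    apply sum_congr _ (fun _ _ => rfl)
    ext i
    simp only [mem_image, mem_range, mem_Icc]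
    constructor
    · rintro ⟨j, hj, rfl⟩; omega
    · rintro ⟨h3, h4⟩; exact ⟨i - 1, by omega, by omega⟩
  rw [h2] at h1
  exact h1

theorem abel_mono (b : ℕ → ℂ) (B : ℝ) (hB : ∀ n, ‖∑ i ∈ Icc 1 n, b i‖ ≤ B) (w : ℕ → ℝ)
    (hw : Monotone w) (hw0 : 0 ≤ w 0) (n : ℕ) :
    ‖∑ i ∈ Icc 1 n, b i * (w i : ℂ)‖ ≤ 2 * B * w n := by
  have hB0 : 0 ≤ B := (norm_nonneg _).trans (hB 0)
  have key : ∀ N, ∑ i ∈ Icc 1 N, b i * (w i : ℂ) = (∑ i ∈ Icc 1 N, b i) * (w N : ℂ)
      - ∑ i ∈ range N, (∑ j ∈ Icc 1 i, b j) * ((w (i+1) - w i : ℝ) : ℂ) := by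
    intro N
    induction N with
    | zero => simp
    | succ N ih =>
      rw [sum_Icc_succ_top (by omega), ih, sum_range_succ, sum_Icc_succ_top (by omega)]
      push_cast; ring
  rw [key]
  refine (norm_sub_le _ _).trans ?_
  have hwn : ∀ n, 0 ≤ w n := fun n => hw0.trans (hw (Nat.zero_le n))
  have h1 : ‖(∑ i ∈ Icc 1 n, b i) * (w n : ℂ)‖ ≤ B * w n := by
    rw [norm_mul, Complex.norm_real, Real.norm_eq_abs, abs_of_nonneg (hwn n)]
    exact mul_le_mul_of_nonneg_right (hB n) (hwn n)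
  have h2 : ‖∑ i ∈ range n, (∑ j ∈ Icc 1 i, b j) * ((w (i+1) - w i : ℝ) : ℂ)‖ ≤
      B * (w n - w 0) := by
    refine (norm_sum_le _ _).trans ?_
    have : ∀ i ∈ range n, ‖(∑ j ∈ Icc 1 i, b j) * ((w (i+1) - w i : ℝ) : ℂ)‖ ≤
        B * (w (i+1) - w i) := by
      intro i _
      have hd : 0 ≤ w (i+1) - w i := sub_nonneg.mpr (hw (Nat.le_succ i))
      rw [norm_mul, Complex.norm_real, Real.norm_eq_abs, abs_of_nonneg hd]
      exact mul_le_mul_of_nonneg_right (hB _) hd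
    refine (sum_le_sum this).trans ?_
    rw [← mul_sum, sum_range_sub]
  nlinarith [mul_nonneg hB0 hw0]

theorem mono_log : Monotone (fun n : ℕ => Real.log n) := by
  intro a b hab
  rcases Nat.eq_zero_or_pos a with h | h
  · subst h
    simp only [Nat.cast_zero, Real.log_zero]
    exact Real.log_natCast_nonneg b
  · exact Real.log_le_log (by exact_mod_cast h) (by exact_mod_cast hab)

theorem mono_log_sq : Monotone (fun n : ℕ => Real.log n ^ 2) := by
  intro a b hab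
  exact pow_le_pow_left₀ (Real.log_natCast_nonneg a) (mono_log hab) 2

theorem inner_log {f : ℕ} (hf : 2 ≤ f) (ψ : DirichletCharacter ℂ f) (hψ : ψ ≠ 1) (X : ℝ)
    (hX : 1 ≤ X) (c M : ℕ) (hc : 1 ≤ c) (hcX : (c:ℝ) ≤ X) (hM : (M : ℝ) ≤ X) :
    ‖∑ b ∈ Icc 1 M, ψ (b : ZMod f) * ((Real.log (X / ((b * c : ℕ) : ℝ)) : ℝ) : ℂ)‖ ≤
      3 * f * Real.log X := by
  have hL : 0 ≤ Real.log X := Real.log_nonneg hX
  have hc0 : (0:ℝ) < c := by exact_mod_cast hc
  have hf0 : (0:ℝ) ≤ f := by positivity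
  have e : ∑ b ∈ Icc 1 M, ψ (b : ZMod f) * ((Real.log (X / ((b * c : ℕ) : ℝ)) : ℝ) : ℂ) =
      ((Real.log (X / c) : ℝ) : ℂ) * ∑ b ∈ Icc 1 M, ψ (b : ZMod f) -
      ∑ b ∈ Icc 1 M, ψ (b : ZMod f) * ((Real.log b : ℝ) : ℂ) := by
    rw [mul_sum, ← sum_sub_distrib]
    apply sum_congr rfl
    intro b hb
    rw [mem_Icc] at hb
    have hb0 : (0:ℝ) < b := by exact_mod_cast hb.1
    have : Real.log (X / ((b * c : ℕ) : ℝ)) = Real.log (X / c) - Real.log b := by
      push_cast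
      rw [← Real.log_div (by positivity) (by positivity)]
      congr 1
      field_simp
    rw [this]
    push_cast
    ring
  rw [e]
  refine (norm_sub_le _ _).trans ?_
  have h1 := abel_mono (fun i => ψ (i : ZMod f)) f (norm_Icc_le hf ψ hψ) (fun n : ℕ => Real.log n)
    mono_log (by simp) M
  have h2 : ‖((Real.log (X / c) : ℝ) : ℂ) * ∑ b ∈ Icc 1 M, ψ (b : ZMod f)‖ ≤ Real.log X * f := by
    rw [norm_mul, Complex.norm_real, Real.norm_eq_abs]
    have h3 : |Real.log (X / c)| ≤ Real.log X := by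
      have hc1 : (1:ℝ) ≤ c := by exact_mod_cast hc
      rw [abs_of_nonneg]
      · apply Real.log_le_log (by positivity)
        exact div_le_self (by linarith) hc1
      · apply Real.log_nonneg
        rwa [le_div_iff₀ hc0, one_mul]
    exact mul_le_mul h3 (norm_Icc_le hf ψ hψ M) (norm_nonneg _) hL
  have h4 : Real.log M ≤ Real.log X := by
    rcases Nat.eq_zero_or_pos M with h | h
    · subst h; simpa using hL
    · exact Real.log_le_log (by exact_mod_cast h) hM
  have h5 : 2 * (f:ℝ) * Real.log M ≤ 2 * f * Real.log X :=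
    mul_le_mul_of_nonneg_left h4 (by positivity)
  linarith

theorem inner_log_log {f : ℕ} (hf : 2 ≤ f) (ψ : DirichletCharacter ℂ f) (hψ : ψ ≠ 1) (X : ℝ)
    (hX : 1 ≤ X) (c M : ℕ) (hc : 1 ≤ c) (hcX : (c:ℝ) ≤ X) (hM : (M : ℝ) ≤ X) :
    ‖∑ b ∈ Icc 1 M, ψ (b : ZMod f) * ((Real.log b : ℝ) : ℂ) *
      ((Real.log (X / ((b * c : ℕ) : ℝ)) : ℝ) : ℂ)‖ ≤ 4 * f * Real.log X ^ 2 := by
  have hL : 0 ≤ Real.log X := Real.log_nonneg hX
  have hc0 : (0:ℝ) < c := by exact_mod_cast hc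
  have hf0 : (0:ℝ) ≤ f := by positivity
  have e : ∑ b ∈ Icc 1 M, ψ (b : ZMod f) * ((Real.log b : ℝ) : ℂ) *
      ((Real.log (X / ((b * c : ℕ) : ℝ)) : ℝ) : ℂ) =
      ((Real.log (X / c) : ℝ) : ℂ) * ∑ b ∈ Icc 1 M, ψ (b : ZMod f) * ((Real.log b : ℝ) : ℂ) -
      ∑ b ∈ Icc 1 M, ψ (b : ZMod f) * ((Real.log b ^ 2 : ℝ) : ℂ) := by
    rw [mul_sum, ← sum_sub_distrib]
    apply sum_congr rfl
    intro b hb
    rw [mem_Icc] at hb
    have hb0 : (0:ℝ) < b := by exact_mod_cast hb.1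
    have : Real.log (X / ((b * c : ℕ) : ℝ)) = Real.log (X / c) - Real.log b := by
      push_cast
      rw [← Real.log_div (by positivity) (by positivity)]
      congr 1
      field_simp
    rw [this]
    push_cast
    ring
  rw [e]
  refine (norm_sub_le _ _).trans ?_
  have h1 := abel_mono (fun i => ψ (i : ZMod f)) f (norm_Icc_le hf ψ hψ) (fun n : ℕ => Real.log n)
    mono_log (by simp) M
  have h1' := abel_mono (fun i => ψ (i : ZMod f)) f (norm_Icc_le hf ψ hψ)
    (fun n : ℕ => Real.log n ^ 2) mono_log_sq (by simp) M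
  have h4 : Real.log M ≤ Real.log X := by
    rcases Nat.eq_zero_or_pos M with h | h
    · subst h; simpa using hL
    · exact Real.log_le_log (by exact_mod_cast h) hM
  have h4' : Real.log M ^ 2 ≤ Real.log X ^ 2 :=
    pow_le_pow_left₀ (Real.log_natCast_nonneg M) h4 2
  have h3 : |Real.log (X / c)| ≤ Real.log X := by
    have hc1 : (1:ℝ) ≤ c := by exact_mod_cast hc
    rw [abs_of_nonneg]
    · apply Real.log_le_log (by positivity)
      exact div_le_self (by linarith) hc1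
    · apply Real.log_nonneg
      rwa [le_div_iff₀ hc0, one_mul]
  have h2 : ‖((Real.log (X / c) : ℝ) : ℂ) *
      ∑ b ∈ Icc 1 M, ψ (b : ZMod f) * ((Real.log b : ℝ) : ℂ)‖ ≤
      Real.log X * (2 * f * Real.log X) := by
    rw [norm_mul, Complex.norm_real, Real.norm_eq_abs]
    apply mul_le_mul h3 _ (norm_nonneg _) hL
    refine h1.trans ?_
    exact mul_le_mul_of_nonneg_left h4 (by positivity)
  have h5 : 2 * (f:ℝ) * Real.log M ^ 2 ≤ 2 * f * Real.log X ^ 2 :=
    mul_le_mul_of_nonneg_left h4' (by positivity)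
  have h6 : Real.log X * (2 * f * Real.log X) = 2 * f * Real.log X ^ 2 := by ring
  linarith

theorem l1_nonneg (U n : ℕ) : 0 ≤ l1 U n := by
  rw [l1_apply]
  split_ifs
  · exact ArithmeticFunction.vonMangoldt_nonneg
  · exact le_rfl

theorem sum_l1 (U : ℕ) (X : ℝ) (hX : 1 ≤ X) : ∑ n ∈ Icc 1 ⌊X⌋₊, l1 U n ≤ U * Real.log X := by
  have hL : 0 ≤ Real.log X := Real.log_nonneg hX
  calc ∑ n ∈ Icc 1 ⌊X⌋₊, l1 U n ≤ ∑ n ∈ Icc 1 ⌊X⌋₊, if n ≤ U then Real.log X else 0 := by
        apply sum_le_sum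
        intro n hn
        rw [mem_Icc] at hn
        rw [l1_apply]
        split_ifs
        · refine ArithmeticFunction.vonMangoldt_le_log.trans ?_
          apply Real.log_le_log (by exact_mod_cast hn.1)
          exact (Nat.le_floor_iff (by linarith)).mp hn.2
        · exact le_rfl
    _ = (((Icc 1 ⌊X⌋₊).filter (fun n => n ≤ U)).card : ℝ) * Real.log X := by
        rw [← sum_filter, sum_const, nsmul_eq_mul]
    _ ≤ ((Icc 1 U).card : ℝ) * Real.log X := by
        apply mul_le_mul_of_nonneg_right _ hL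
        norm_cast
        apply card_le_card
        intro n hn
        rw [mem_filter, mem_Icc] at hn
        rw [mem_Icc]
        exact ⟨hn.1.1, hn.2⟩
    _ = _ := by simp

theorem sum_mu1 (V y : ℕ) : ∑ n ∈ Icc 1 y, |mu1 V n| ≤ V := by
  calc ∑ n ∈ Icc 1 y, |mu1 V n| ≤ ∑ n ∈ Icc 1 y, (if n ≤ V then (1:ℝ) else 0) := by
        apply sum_le_sum
        intro n _
        rw [mu1_apply]
        split_ifs
        · exact_mod_cast ArithmeticFunction.abs_moebius_le_one
        · simp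
    _ = (((Icc 1 y).filter (fun n => n ≤ V)).card : ℝ) := by simp
    _ ≤ ((Icc 1 V).card : ℝ) := by
        norm_cast
        apply card_le_card
        intro n hn
        rw [mem_filter, mem_Icc] at hn
        rw [mem_Icc]
        exact ⟨hn.1.1, hn.2⟩
    _ = V := by simp

theorem sum_conv (U V : ℕ) (X : ℝ) (hX : 1 ≤ X) :
    ∑ n ∈ Icc 1 ⌊X⌋₊, |(mu1 V * l1 U) n| ≤ V * (U * Real.log X) := by
  have hL : 0 ≤ Real.log X := Real.log_nonneg hX
  calc ∑ n ∈ Icc 1 ⌊X⌋₊, |(mu1 V * l1 U) n| ≤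
      ∑ n ∈ Icc 1 ⌊X⌋₊, ∑ i ∈ n.divisorsAntidiagonal, |mu1 V i.1| * l1 U i.2 := by
        apply sum_le_sum
        intro n _
        rw [ArithmeticFunction.mul_apply]
        refine (abs_sum_le_sum_abs _ _).trans (le_of_eq ?_)
        apply sum_congr rfl
        intro i _
        rw [abs_mul, abs_of_nonneg (l1_nonneg U i.2)]
    _ = ∑ c ∈ Icc 1 ⌊X⌋₊, ∑ b ∈ Icc 1 (⌊X⌋₊ / c), |mu1 V b| * l1 U c :=
        hyperC ⌊X⌋₊ (fun b c => |mu1 V b| * l1 U c)
    _ ≤ ∑ c ∈ Icc 1 ⌊X⌋₊, V * l1 U c := by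
        apply sum_le_sum
        intro c _
        rw [← sum_mul]
        exact mul_le_mul_of_nonneg_right (sum_mu1 V _) (l1_nonneg U c)
    _ = V * ∑ c ∈ Icc 1 ⌊X⌋₊, l1 U c := by rw [mul_sum]
    _ ≤ _ := mul_le_mul_of_nonneg_left (sum_l1 U X hX) (by positivity)

theorem TL_add (X : ℝ) (f : ℕ) (ψ : DirichletCharacter ℂ f) (g h : ℕ → ℝ) :
    TL X f ψ (fun n => g n + h n) = TL X f ψ g + TL X f ψ h := by
  unfold TL
  rw [← sum_add_distrib]
  apply sum_congr rfl
  intro n _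
  push_cast; ring

theorem TL_sub (X : ℝ) (f : ℕ) (ψ : DirichletCharacter ℂ f) (g h : ℕ → ℝ) :
    TL X f ψ (fun n => g n - h n) = TL X f ψ g - TL X f ψ h := by
  unfold TL
  rw [← sum_sub_distrib]
  apply sum_congr rfl
  intro n _
  push_cast; ring

/-- Type I bound. -/
theorem typeI (X : ℝ) (hX : 1 ≤ X) (U V f : ℕ) (hU : 1 ≤ U) (hV : 1 ≤ V) (hf : 2 ≤ f)
    (ψ : DirichletCharacter ℂ f) (hψ : ψ ≠ 1) :
    ‖TL X f ψ (fun n => ArithmeticFunction.vonMangoldt n - LamII U V n)‖ ≤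
      8 * U * V * f * Real.log X ^ 2 := by
  have hL : 0 ≤ Real.log X := Real.log_nonneg hX
  have hU' : (1 : ℝ) ≤ U := by exact_mod_cast hU
  have hV' : (1 : ℝ) ≤ V := by exact_mod_cast hV
  have hf' : (1 : ℝ) ≤ f := by
    have : 1 ≤ f := by omega
    exact_mod_cast this
  set zt : ArithmeticFunction ℝ :=
    ((ArithmeticFunction.zeta : ArithmeticFunction ℕ) : ArithmeticFunction ℝ) with hzt
  have e : TL X f ψ (fun n => ArithmeticFunction.vonMangoldt n - LamII U V n) =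
      TL X f ψ (fun n => l1 U n) + TL X f ψ (fun n => (ArithmeticFunction.log * mu1 V) n) -
      TL X f ψ (fun n => (zt * (mu1 V * l1 U)) n) := by
    rw [← TL_add, ← TL_sub]
    congr 1
    funext n
    exact vaughan U V n
  rw [e]
  -- first
  have t1 : ‖TL X f ψ (fun n => l1 U n)‖ ≤ U * Real.log X ^ 2 := by
    unfold TL
    refine (norm_sum_le _ _).trans ?_
    calc ∑ n ∈ Icc 1 ⌊X⌋₊, ‖((l1 U n : ℝ) : ℂ) * ψ (n : ZMod f) *
        ((Real.log (X / n) : ℝ) : ℂ)‖ ≤ ∑ n ∈ Icc 1 ⌊X⌋₊, l1 U n * Real.log X := by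
          apply sum_le_sum
          intro n hn
          rw [mem_Icc] at hn
          have hn0 : (1:ℝ) ≤ n := by exact_mod_cast hn.1
          have hnX : (n:ℝ) ≤ X := (Nat.le_floor_iff (by linarith)).mp hn.2
          rw [norm_mul, norm_mul, Complex.norm_real, Complex.norm_real, Real.norm_eq_abs,
            Real.norm_eq_abs, abs_of_nonneg (l1_nonneg U n)]
          have h1 : |Real.log (X / n)| ≤ Real.log X := by
            rw [abs_of_nonneg]
            · apply Real.log_le_log (by positivity)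
              exact div_le_self (by linarith) hn0
            · apply Real.log_nonneg
              rwa [le_div_iff₀ (by linarith), one_mul]
          have h2 := ψ.norm_le_one (n : ZMod f)
          have h3 := l1_nonneg U n
          calc l1 U n * ‖ψ (n : ZMod f)‖ * |Real.log (X / n)| ≤ l1 U n * 1 * Real.log X := by
                gcongr
            _ = _ := by ring
      _ = (∑ n ∈ Icc 1 ⌊X⌋₊, l1 U n) * Real.log X := by rw [sum_mul]
      _ ≤ (U * Real.log X) * Real.log X := mul_le_mul_of_nonneg_right (sum_l1 U X hX) hL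
      _ = _ := by ring
  -- second
  have t2 : ‖TL X f ψ (fun n => (ArithmeticFunction.log * mu1 V) n)‖ ≤
      V * (4 * f * Real.log X ^ 2) := by
    have e2 : TL X f ψ (fun n => (ArithmeticFunction.log * mu1 V) n) =
        ∑ c ∈ Icc 1 ⌊X⌋₊, ((mu1 V c : ℝ) : ℂ) * ψ (c : ZMod f) *
          ∑ b ∈ Icc 1 (⌊X⌋₊ / c), ψ (b : ZMod f) * ((Real.log b : ℝ) : ℂ) *
            ((Real.log (X / ((b * c : ℕ) : ℝ)) : ℝ) : ℂ) := by
      have h1 : TL X f ψ (fun n => (ArithmeticFunction.log * mu1 V) n) =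
          ∑ n ∈ Icc 1 ⌊X⌋₊, ∑ i ∈ n.divisorsAntidiagonal,
          ((mu1 V i.2 : ℝ) : ℂ) * ψ (i.2 : ZMod f) * (ψ (i.1 : ZMod f) *
            ((Real.log i.1 : ℝ) : ℂ) * ((Real.log (X / ((i.1 * i.2 : ℕ) : ℝ)) : ℝ) : ℂ)) := by
        unfold TL
        apply sum_congr rfl
        intro n _
        beta_reduce
        rw [ArithmeticFunction.mul_apply, Complex.ofReal_sum, sum_mul, sum_mul]
        apply sum_congr rfl
        intro i hi
        rw [Nat.mem_divisorsAntidiagonal] at hi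
        rw [← hi.1, ArithmeticFunction.log_apply]
        push_cast
        rw [map_mul]
        ring
      rw [h1, hyperC ⌊X⌋₊ (fun b c => ((mu1 V c : ℝ) : ℂ) * ψ (c : ZMod f) * (ψ (b : ZMod f) *
            ((Real.log b : ℝ) : ℂ) * ((Real.log (X / ((b * c : ℕ) : ℝ)) : ℝ) : ℂ)))]
      apply sum_congr rfl
      intro c _
      rw [mul_sum]
    rw [e2]
    refine (norm_sum_le _ _).trans ?_
    calc _ ≤ ∑ c ∈ Icc 1 ⌊X⌋₊, |mu1 V c| * (4 * f * Real.log X ^ 2) := by
          apply sum_le_sum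
          intro c hc
          rw [mem_Icc] at hc
          have hcX : (c:ℝ) ≤ X := (Nat.le_floor_iff (by linarith)).mp hc.2
          have hMX : ((⌊X⌋₊ / c : ℕ) : ℝ) ≤ X :=
            (Nat.le_floor_iff (by linarith)).mp (Nat.div_le_self _ _)
          rw [norm_mul, norm_mul, Complex.norm_real, Real.norm_eq_abs]
          have h1 := inner_log_log hf ψ hψ X hX c (⌊X⌋₊ / c) hc.1 hcX hMX
          have h2 := ψ.norm_le_one (c : ZMod f)
          have h3 := abs_nonneg (mu1 V c)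
          calc _ ≤ |mu1 V c| * 1 * (4 * f * Real.log X ^ 2) := by gcongr
            _ = _ := by ring
      _ = (∑ c ∈ Icc 1 ⌊X⌋₊, |mu1 V c|) * (4 * f * Real.log X ^ 2) := by rw [sum_mul]
      _ ≤ _ := mul_le_mul_of_nonneg_right (sum_mu1 V _) (by positivity)
  -- third
  have t3 : ‖TL X f ψ (fun n => (zt * (mu1 V * l1 U)) n)‖ ≤
      (V * (U * Real.log X)) * (3 * f * Real.log X) := by
    have e3 : TL X f ψ (fun n => (zt * (mu1 V * l1 U)) n) =
        ∑ c ∈ Icc 1 ⌊X⌋₊, (((mu1 V * l1 U) c : ℝ) : ℂ) * ψ (c : ZMod f) *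
          ∑ b ∈ Icc 1 (⌊X⌋₊ / c), ψ (b : ZMod f) *
            ((Real.log (X / ((b * c : ℕ) : ℝ)) : ℝ) : ℂ) := by
      have h1 : TL X f ψ (fun n => (zt * (mu1 V * l1 U)) n) =
          ∑ n ∈ Icc 1 ⌊X⌋₊, ∑ i ∈ n.divisorsAntidiagonal,
          (((mu1 V * l1 U) i.2 : ℝ) : ℂ) * ψ (i.2 : ZMod f) * (ψ (i.1 : ZMod f) *
            ((Real.log (X / ((i.1 * i.2 : ℕ) : ℝ)) : ℝ) : ℂ)) := by
        unfold TL
        apply sum_congr rfl
        intro n _
        beta_reduce
        rw [ArithmeticFunction.mul_apply, Complex.ofReal_sum, sum_mul, sum_mul]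
        apply sum_congr rfl
        intro i hi
        rw [Nat.mem_divisorsAntidiagonal] at hi
        have hi1 : i.1 ≠ 0 := by
          rintro h
          rw [h] at hi
          simp at hi
          omega
        have hz : zt i.1 = 1 := by
          rw [hzt, ArithmeticFunction.natCoe_apply, ArithmeticFunction.zeta_apply, if_neg hi1]
          simp
        rw [hz, ← hi.1]
        push_cast
        rw [map_mul]
        ring
      rw [h1, hyperC ⌊X⌋₊ (fun b c => (((mu1 V * l1 U) c : ℝ) : ℂ) * ψ (c : ZMod f) *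
        (ψ (b : ZMod f) * ((Real.log (X / ((b * c : ℕ) : ℝ)) : ℝ) : ℂ)))]
      apply sum_congr rfl
      intro c _
      rw [mul_sum]
    rw [e3]
    refine (norm_sum_le _ _).trans ?_
    calc _ ≤ ∑ c ∈ Icc 1 ⌊X⌋₊, |(mu1 V * l1 U) c| * (3 * f * Real.log X) := by
          apply sum_le_sum
          intro c hc
          rw [mem_Icc] at hc
          have hcX : (c:ℝ) ≤ X := (Nat.le_floor_iff (by linarith)).mp hc.2
          have hMX : ((⌊X⌋₊ / c : ℕ) : ℝ) ≤ X :=
            (Nat.le_floor_iff (by linarith)).mp (Nat.div_le_self _ _)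
          rw [norm_mul, norm_mul, Complex.norm_real, Real.norm_eq_abs]
          have h1 := inner_log hf ψ hψ X hX c (⌊X⌋₊ / c) hc.1 hcX hMX
          have h2 := ψ.norm_le_one (c : ZMod f)
          have h3 := abs_nonneg ((mu1 V * l1 U) c)
          calc _ ≤ |(mu1 V * l1 U) c| * 1 * (3 * f * Real.log X) := by gcongr
            _ = _ := by ring
      _ = (∑ c ∈ Icc 1 ⌊X⌋₊, |(mu1 V * l1 U) c|) * (3 * f * Real.log X) := by rw [sum_mul]
      _ ≤ _ := mul_le_mul_of_nonneg_right (sum_conv U V X hX) (by positivity)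
  refine (norm_sub_le _ _).trans ?_
  have t12 := norm_add_le (TL X f ψ (fun n => l1 U n))
    (TL X f ψ (fun n => (ArithmeticFunction.log * mu1 V) n))
  have hL2 : 0 ≤ Real.log X ^ 2 := by positivity
  have a1 : (U:ℝ) * Real.log X ^ 2 ≤ U * V * f * Real.log X ^ 2 := by
    apply mul_le_mul_of_nonneg_right _ hL2
    have : (U:ℝ) * 1 ≤ U * (V * f) := mul_le_mul_of_nonneg_left (by nlinarith) (by linarith)
    linarith
  have a2 : (V:ℝ) * (4 * f * Real.log X ^ 2) ≤ 4 * (U * V * f * Real.log X ^ 2) := by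
    have : 0 ≤ ((U:ℝ) - 1) * (V * f * Real.log X ^ 2) := by
      apply mul_nonneg (by linarith)
      positivity
    nlinarith
  have a3 : (V:ℝ) * (U * Real.log X) * (3 * f * Real.log X) = 3 * (U * V * f * Real.log X ^ 2) := by
    ring
  linarith

end Pool.Agent.H398R2.BV
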