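import Mathlib
import Pool.Agent.H45.Lib.S8.H398R2.BV6
import Pool.Agent.H45.Lib.S8.H410R2.Iface2

/-! From `BVTotal` to `BVAP`: arithmetic lemmas. -/

open Finset

namespace Pool.Agent.H398R2.BV

open Pool.Agent.Helper112 Pool.Agent.H410R2

theorem totient_mul_le_mul (a b : ℕ) (ha : a ≠ 0) (hb : b ≠ 0) :
    Nat.totient (a * b) ≤ a * Nat.totient b := by
  have h1 := Nat.totient_eq_mul_prod_factors (a * b)
  have h2 := Nat.totient_eq_mul_prod_factors b
  have h3 : (Nat.totient (a * b) : ℚ) ≤ (a : ℚ) * Nat.totient b := by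
    rw [h1, h2]
    push_cast
    rw [mul_assoc]
    apply mul_le_mul_of_nonneg_left _ (by positivity)
    apply mul_le_mul_of_nonneg_left _ (by positivity)
    rw [Nat.primeFactors_mul ha hb, ← prod_sdiff (subset_union_right :
      b.primeFactors ⊆ a.primeFactors ∪ b.primeFactors)]
    have h4 : ∏ p ∈ (a.primeFactors ∪ b.primeFactors) \ b.primeFactors, (1 - (p : ℚ)⁻¹) ≤ 1 := by
      apply prod_le_one
      · intro p hp
        have hp' : p.Prime := by
          rw [Finset.mem_sdiff, Finset.mem_union] at hp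
          rcases hp.1 with h | h
          · exact Nat.prime_of_mem_primeFactors h
          · exact Nat.prime_of_mem_primeFactors h
        have : (1:ℚ) ≤ p := by exact_mod_cast hp'.one_le
        have := inv_le_one_of_one_le₀ this
        linarith
      · intro p _
        have : (0:ℚ) ≤ (p:ℚ)⁻¹ := by positivity
        linarith
    have h5 : 0 ≤ ∏ p ∈ b.primeFactors, (1 - (p : ℚ)⁻¹) := by
      apply prod_nonneg
      intro p hp
      have hp' := Nat.prime_of_mem_primeFactors hp
      have : (1:ℚ) ≤ p := by exact_mod_cast hp'.one_le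
      have := inv_le_one_of_one_le₀ this
      linarith
    calc _ ≤ 1 * ∏ p ∈ b.primeFactors, (1 - (p : ℚ)⁻¹) := mul_le_mul_of_nonneg_right h4 h5
      _ = _ := one_mul _
  exact_mod_cast h3

/-- sums of powers of the divisor function over `n` -/
theorem sum_card_pow_div (k Y : ℕ) :
    ∑ n ∈ Icc 1 Y, (n.divisors.card : ℝ) ^ k / n ≤ (1 + Real.log Y) ^ (2 ^ k) := by
  induction k with
  | zero =>
    simp only [pow_zero, pow_one]
    exact harm_le' Y
  | succ k ih =>
    have h0 : 0 ≤ ∑ n ∈ Icc 1 Y, (n.divisors.card : ℝ) ^ k / n :=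
      sum_nonneg fun _ _ => by positivity
    have h1 : ∑ n ∈ Icc 1 Y, (n.divisors.card : ℝ) ^ (k + 1) / n ≤
        ∑ c ∈ Icc 1 Y, ∑ b ∈ Icc 1 (Y / c),
          ((b.divisors.card : ℝ) ^ k / b) * ((c.divisors.card : ℝ) ^ k / c) := by
      rw [← hyperC Y (fun b c => ((b.divisors.card : ℝ) ^ k / b) * ((c.divisors.card : ℝ) ^ k / c))]
      apply sum_le_sum
      intro n hn
      rw [mem_Icc] at hn
      have : ∀ i ∈ n.divisorsAntidiagonal, (n.divisors.card : ℝ) ^ k / n ≤
          ((i.1.divisors.card : ℝ) ^ k / i.1) * ((i.2.divisors.card : ℝ) ^ k / i.2) := by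
        intro i hi
        rw [Nat.mem_divisorsAntidiagonal] at hi
        rw [← hi.1, div_mul_div_comm, ← mul_pow]
        push_cast
        apply div_le_div_of_nonneg_right _ (by positivity)
        apply pow_le_pow_left₀ (by positivity)
        exact_mod_cast card_div_mul_le i.1 i.2
      calc (n.divisors.card : ℝ) ^ (k + 1) / n =
          ∑ i ∈ n.divisorsAntidiagonal, (n.divisors.card : ℝ) ^ k / n := by
            rw [sum_const, nsmul_eq_mul, ← Nat.map_div_right_divisors, card_map]
            ring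
        _ ≤ _ := sum_le_sum this
    refine h1.trans ?_
    calc ∑ c ∈ Icc 1 Y, ∑ b ∈ Icc 1 (Y / c),
          ((b.divisors.card : ℝ) ^ k / b) * ((c.divisors.card : ℝ) ^ k / c)
        ≤ ∑ c ∈ Icc 1 Y, (∑ b ∈ Icc 1 Y, (b.divisors.card : ℝ) ^ k / b) *
          ((c.divisors.card : ℝ) ^ k / c) := by
          apply sum_le_sum
          intro c _
          rw [← sum_mul]
          apply mul_le_mul_of_nonneg_right _ (by positivity)
          apply sum_le_sum_of_subset_of_nonneg
          · exact Icc_subset_Icc_right (Nat.div_le_self _ _)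
          · intro i _ _; positivity
      _ = (∑ b ∈ Icc 1 Y, (b.divisors.card : ℝ) ^ k / b) *
          (∑ b ∈ Icc 1 Y, (b.divisors.card : ℝ) ^ k / b) := by rw [mul_sum]
      _ ≤ (1 + Real.log Y) ^ (2 ^ k) * (1 + Real.log Y) ^ (2 ^ k) :=
          mul_le_mul ih ih h0 (h0.trans ih)
      _ = _ := by rw [← pow_add, ← two_mul, pow_succ, mul_comm 2]

theorem one_div_totient_le (e : ℕ) (he : 1 ≤ e) :
    1 / (Nat.totient e : ℝ) ≤ 2 ^ e.primeFactors.card / e := by
  have h1 : (e:ℝ) / Nat.totient e = ∏ p ∈ e.primeFactors, ((p:ℝ) / (p - 1)) :=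
    ratio_eq e (by omega)
  have h2 : (e:ℝ) / Nat.totient e ≤ 2 ^ e.primeFactors.card := by
    rw [h1, ← prod_const]
    apply prod_le_prod
    · intro p hp
      have := (Nat.prime_of_mem_primeFactors hp).two_le
      have : (2:ℝ) ≤ p := by exact_mod_cast this
      apply div_nonneg <;> linarith
    · intro p hp
      have := (Nat.prime_of_mem_primeFactors hp).two_le
      have : (2:ℝ) ≤ p := by exact_mod_cast this
      rw [div_le_iff₀ (by linarith)]
      linarith
  have he0 : (0:ℝ) < e := by exact_mod_cast he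
  have hφ : (0:ℝ) < Nat.totient e := by exact_mod_cast Nat.totient_pos.mpr (by omega)
  rw [div_le_div_iff₀ hφ he0]
  rw [div_le_iff₀ hφ] at h2
  linarith

/-- `∑ c^ω(e)/φ(e)` -/
theorem sum_pow_omega_div_totient (c : ℝ) (hc : 1 ≤ c) : ∃ k : ℕ, ∀ Q : ℕ,
    ∑ e ∈ Icc 1 Q, c ^ e.primeFactors.card / (Nat.totient e : ℝ) ≤
      (1 + Real.log Q) ^ (2 ^ k) := by
  obtain ⟨k, hk⟩ := pow_unbounded_of_one_lt (2 * c) (show (1:ℝ) < 2 by norm_num)
  refine ⟨k, fun Q => ?_⟩
  refine le_trans ?_ (sum_card_pow_div k Q)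
  apply sum_le_sum
  intro e he
  rw [mem_Icc] at he
  have h1 := one_div_totient_le e he.1
  have he0 : (0:ℝ) < e := by exact_mod_cast he.1
  calc c ^ e.primeFactors.card / (Nat.totient e : ℝ) =
      c ^ e.primeFactors.card * (1 / (Nat.totient e : ℝ)) := by ring
    _ ≤ c ^ e.primeFactors.card * (2 ^ e.primeFactors.card / e) :=
        mul_le_mul_of_nonneg_left h1 (by positivity)
    _ = (2 * c) ^ e.primeFactors.card / e := by rw [mul_pow]; ring
    _ ≤ ((2:ℝ) ^ k) ^ e.primeFactors.card / e := by
        apply div_le_div_of_nonneg_right _ he0.le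
        exact pow_le_pow_left₀ (by linarith) hk.le _
    _ = ((2:ℝ) ^ e.primeFactors.card) ^ k / e := by
        rw [← pow_mul, ← pow_mul, mul_comm]
    _ ≤ (e.divisors.card : ℝ) ^ k / e := by
        apply div_le_div_of_nonneg_right _ he0.le
        apply pow_le_pow_left₀ (by positivity)
        exact_mod_cast two_pow_omega_le e (by omega)

theorem omega_le_log (m : ℕ) (hm : 1 ≤ m) : (m.primeFactors.card : ℝ) ≤ 2 * Real.log m := by
  have h1 : (2:ℝ) ^ m.primeFactors.card ≤ m := by
    exact_mod_cast (two_pow_omega_le m (by omega)).trans (Nat.card_divisors_le_self m)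
  have h2 := Real.log_le_log (by positivity) h1
  rw [Real.log_pow] at h2
  have h3 : (0.5:ℝ) < Real.log 2 := by
    have := Real.log_two_gt_d9
    linarith
  have h4 : (0:ℝ) ≤ (m.primeFactors.card : ℝ) := by positivity
  nlinarith

/-- the contribution of prime powers not coprime to the modulus -/
theorem sum_not_coprime (N m : ℕ) (hm : 1 ≤ m) :
    ∑ n ∈ (Icc 1 N).filter (fun n => ¬ n.Coprime m), ArithmeticFunction.vonMangoldt n ≤
      m.primeFactors.card * Real.log N := by
  set M := ∏ p ∈ m.primeFactors, p ^ (Nat.log p N) with hM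
  have hM0 : M ≠ 0 := by
    rw [hM, prod_ne_zero_iff]
    intro p hp
    exact pow_ne_zero _ (Nat.prime_of_mem_primeFactors hp).ne_zero
  have h1 : ∑ n ∈ (Icc 1 N).filter (fun n => ¬ n.Coprime m), ArithmeticFunction.vonMangoldt n ≤
      ∑ n ∈ M.divisors, ArithmeticFunction.vonMangoldt n := by
    have h2 : ∑ n ∈ (Icc 1 N).filter (fun n => ¬ n.Coprime m),
        ArithmeticFunction.vonMangoldt n =
        ∑ n ∈ ((Icc 1 N).filter (fun n => ¬ n.Coprime m)).filter
          (fun n => ArithmeticFunction.vonMangoldt n ≠ 0), ArithmeticFunction.vonMangoldt n := by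
      rw [sum_filter_ne_zero]
    rw [h2]
    apply sum_le_sum_of_subset_of_nonneg
    · intro n hn
      rw [mem_filter, mem_filter, mem_Icc] at hn
      obtain ⟨⟨⟨h3, h4⟩, h5⟩, h6⟩ := hn
      rw [ArithmeticFunction.vonMangoldt_ne_zero_iff] at h6
      obtain ⟨p, k, hp, hk, rfl⟩ := h6
      have hp' : p.Prime := Nat.prime_iff.mpr hp
      rw [Nat.mem_divisors]
      refine ⟨?_, hM0⟩
      have hpm : p ∣ m := by
        by_contra hcon
        apply h5
        exact Nat.Coprime.pow_left k ((Nat.Prime.coprime_iff_not_dvd hp').mpr hcon)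
      have hmem : p ∈ m.primeFactors := Nat.mem_primeFactors.mpr ⟨hp', hpm, by omega⟩
      have hk2 : k ≤ Nat.log p N := Nat.le_log_of_pow_le hp'.one_lt h4
      exact (pow_dvd_pow p hk2).trans (dvd_prod_of_mem _ hmem)
    · intro n _ _
      exact ArithmeticFunction.vonMangoldt_nonneg
  refine h1.trans ?_
  rw [ArithmeticFunction.vonMangoldt_sum, hM]
  push_cast
  rw [Real.log_prod]
  · calc ∑ p ∈ m.primeFactors, Real.log ((p:ℝ) ^ (Nat.log p N)) ≤
        ∑ p ∈ m.primeFactors, Real.log N := by
          apply sum_le_sum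
          intro p hp
          have hp' := Nat.prime_of_mem_primeFactors hp
          rcases Nat.eq_zero_or_pos N with h | h
          · subst h; simp
          · apply Real.log_le_log
            · have := hp'.pos
              positivity
            · exact_mod_cast Nat.pow_log_le_self p (by omega)
      _ = _ := by rw [sum_const, nsmul_eq_mul]
  · intro p hp
    have := (Nat.prime_of_mem_primeFactors hp).pos
    positivity

end Pool.Agent.H398R2.BV
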