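import Mathlib
import Pool.Agent.H45.Lib.S8.H398R2.BA2

/-! From `BVTotal` to `BVAP`: summation over moduli. -/

open Finset

namespace Pool.Agent.H398R2.BV

open Pool.Agent.Helper112 Pool.Agent.Helper112.BLB Pool.Agent.H410R2

theorem card_primeFactors_mul_le (a b : ℕ) :
    (a * b).primeFactors.card ≤ a.primeFactors.card + b.primeFactors.card := by
  rcases Nat.eq_zero_or_pos a with h | h
  · subst h; simp
  rcases Nat.eq_zero_or_pos b with h' | h'
  · subst h'; simp
  rw [Nat.primeFactors_mul (by omega) (by omega)]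
  exact card_union_le _ _

theorem inner_sum (c : ℝ) (hc : 1 ≤ c) (m₀ Q f : ℕ) (hm : 1 ≤ m₀) (hf : 1 ≤ f) :
    ∑ q ∈ (Icc 1 Q).filter (fun q => f ∣ m₀ * q),
      c ^ q.primeFactors.card / (Nat.totient (m₀ * q) : ℝ) ≤
      (m₀ * (c ^ f.primeFactors.card / (Nat.totient f : ℝ))) *
        ∑ e ∈ Icc 1 Q, c ^ e.primeFactors.card / (Nat.totient e : ℝ) := by
  set g := Nat.gcd f m₀ with hg
  have hg0 : 0 < g := Nat.gcd_pos_of_pos_left _ hf
  obtain ⟨f', hf'⟩ : g ∣ f := Nat.gcd_dvd_left f m₀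
  obtain ⟨m', hm'⟩ : g ∣ m₀ := Nat.gcd_dvd_right f m₀
  have hf'0 : 0 < f' := by
    rcases Nat.eq_zero_or_pos f' with h | h
    · rw [h] at hf'; omega
    · exact h
  have hcop : f'.Coprime m' := by
    have h1 := Nat.coprime_div_gcd_div_gcd (m := f) (n := m₀) hg0
    rw [← hg] at h1
    rwa [show f / g = f' by rw [hf']; exact Nat.mul_div_cancel_left f' hg0,
      show m₀ / g = m' by rw [hm']; exact Nat.mul_div_cancel_left m' hg0] at h1
  have hdvd : ∀ q, f ∣ m₀ * q → f' ∣ q := by
    intro q hq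
    rw [hf', hm', mul_assoc] at hq
    have h2 : f' ∣ m' * q := Nat.dvd_of_mul_dvd_mul_left hg0 hq
    exact hcop.dvd_of_dvd_mul_left h2
  have hφf : (0:ℝ) < Nat.totient f := by exact_mod_cast Nat.totient_pos.mpr hf
  have hφf' : (0:ℝ) < Nat.totient f' := by exact_mod_cast Nat.totient_pos.mpr hf'0
  have hφ1 : (Nat.totient f : ℝ) ≤ m₀ * Nat.totient f' := by
    have h1 := totient_mul_le_mul g f' (by omega) (by omega)
    rw [← hf'] at h1
    have h2 : g ≤ m₀ := Nat.gcd_le_right _ hm
    have h3 : Nat.totient f ≤ m₀ * Nat.totient f' := h1.trans (Nat.mul_le_mul_right _ h2)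
    exact_mod_cast h3
  have hω : f'.primeFactors.card ≤ f.primeFactors.card := by
    apply card_le_card
    apply Nat.primeFactors_mono ⟨g, by rw [hf']; ring⟩ (by omega)
  have hterm : ∀ q ∈ (Icc 1 Q).filter (fun q => f ∣ m₀ * q),
      c ^ q.primeFactors.card / (Nat.totient (m₀ * q) : ℝ) ≤
      (m₀ * (c ^ f.primeFactors.card / (Nat.totient f : ℝ))) *
        (c ^ (q / f').primeFactors.card / (Nat.totient (q / f') : ℝ)) := by
    intro q hq
    rw [mem_filter, mem_Icc] at hq
    obtain ⟨⟨hq1, hq2⟩, hq3⟩ := hq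
    obtain ⟨e, he⟩ := hdvd q hq3
    have he0 : 0 < e := by
      rcases Nat.eq_zero_or_pos e with h | h
      · rw [h] at he; omega
      · exact h
    have hqe : q / f' = e := by rw [he]; exact Nat.mul_div_cancel_left e hf'0
    rw [hqe]
    have hφe : (0:ℝ) < Nat.totient e := by exact_mod_cast Nat.totient_pos.mpr he0
    have h1 : c ^ q.primeFactors.card ≤ c ^ f.primeFactors.card * c ^ e.primeFactors.card := by
      rw [← pow_add]
      apply pow_le_pow_right₀ hc
      rw [he]
      have := card_primeFactors_mul_le f' e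
      omega
    have h2 : (Nat.totient f' : ℝ) * Nat.totient e ≤ Nat.totient (m₀ * q) := by
      have h3 : Nat.totient f' * Nat.totient e ≤ Nat.totient q := by
        rw [he]; exact Nat.totient_super_multiplicative f' e
      have h4 : Nat.totient q ≤ Nat.totient (m₀ * q) := by
        apply Nat.le_of_dvd
        · apply Nat.totient_pos.mpr
          positivity
        · exact Nat.totient_dvd_of_dvd ⟨m₀, by ring⟩
      exact_mod_cast h3.trans h4
    have h5 : 1 / (Nat.totient (m₀ * q) : ℝ) ≤ (m₀ / Nat.totient f) * (1 / Nat.totient e) := by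
      calc 1 / (Nat.totient (m₀ * q) : ℝ) ≤ 1 / ((Nat.totient f' : ℝ) * Nat.totient e) :=
            one_div_le_one_div_of_le (by positivity) h2
        _ = (1 / (Nat.totient f' : ℝ)) * (1 / Nat.totient e) := by
            rw [one_div_mul_one_div]
        _ ≤ (m₀ / Nat.totient f) * (1 / Nat.totient e) := by
            apply mul_le_mul_of_nonneg_right _ (by positivity)
            rw [div_le_div_iff₀ hφf' hφf]
            linarith
    calc c ^ q.primeFactors.card / (Nat.totient (m₀ * q) : ℝ) =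
        c ^ q.primeFactors.card * (1 / (Nat.totient (m₀ * q) : ℝ)) := by ring
      _ ≤ (c ^ f.primeFactors.card * c ^ e.primeFactors.card) *
          ((m₀ / Nat.totient f) * (1 / Nat.totient e)) := by
          apply mul_le_mul h1 h5 (by positivity) (by positivity)
      _ = _ := by ring
  refine (sum_le_sum hterm).trans ?_
  rw [← mul_sum]
  apply mul_le_mul_of_nonneg_left _ (by positivity)
  rw [← sum_image (f := fun e => c ^ e.primeFactors.card / (Nat.totient e : ℝ))
    (s := (Icc 1 Q).filter (fun q => f ∣ m₀ * q)) (g := fun q => q / f')]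
  · apply sum_le_sum_of_subset_of_nonneg
    · intro e he
      rw [mem_image] at he
      obtain ⟨q, hq, rfl⟩ := he
      rw [mem_filter, mem_Icc] at hq
      obtain ⟨⟨hq1, hq2⟩, hq3⟩ := hq
      rw [mem_Icc]
      refine ⟨Nat.div_pos (Nat.le_of_dvd (by omega) (hdvd q hq3)) hf'0,
        (Nat.div_le_self _ _).trans hq2⟩
    · intro e _ _
      have : (0:ℝ) ≤ c := by linarith
      positivity
  · intro q hq q' hq' h
    simp only [Finset.mem_coe, mem_filter] at hq hq'
    have h1 := Nat.div_mul_cancel (hdvd q hq.2)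
    have h2 := Nat.div_mul_cancel (hdvd q' hq'.2)
    simp only at h
    rw [← h1, ← h2, h]

theorem interchange (c : ℝ) (hc : 1 ≤ c) (m₀ Q : ℕ) (hm : 1 ≤ m₀) (S : ℕ → ℝ)
    (hS : ∀ f, 0 ≤ S f) :
    ∑ q ∈ Icc 1 Q, c ^ q.primeFactors.card * ((1 / (Nat.totient (m₀ * q) : ℝ)) *
      ∑ f ∈ (m₀ * q).divisors.filter (fun f => f ≠ 1), S f) ≤
      (m₀ * ∑ e ∈ Icc 1 Q, c ^ e.primeFactors.card / (Nat.totient e : ℝ)) *
        ∑ f ∈ Icc 2 (m₀ * Q), (c ^ f.primeFactors.card / (Nat.totient f : ℝ)) * S f := by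
  have hc0 : (0:ℝ) ≤ c := by linarith
  have h1 : ∑ q ∈ Icc 1 Q, c ^ q.primeFactors.card * ((1 / (Nat.totient (m₀ * q) : ℝ)) *
      ∑ f ∈ (m₀ * q).divisors.filter (fun f => f ≠ 1), S f) ≤
      ∑ q ∈ Icc 1 Q, ∑ f ∈ Icc 2 (m₀ * Q),
        if f ∣ m₀ * q then (c ^ q.primeFactors.card / (Nat.totient (m₀ * q) : ℝ)) * S f else 0 := by
    apply sum_le_sum
    intro q hq
    rw [mem_Icc] at hq
    rw [← mul_assoc, mul_one_div, mul_sum, ← sum_filter]
    apply sum_le_sum_of_subset_of_nonneg
    · intro f hf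
      rw [mem_filter, Nat.mem_divisors] at hf
      rw [mem_filter, mem_Icc]
      obtain ⟨⟨h2, h3⟩, h4⟩ := hf
      have h5 : 0 < f := Nat.pos_of_dvd_of_pos h2 (by positivity)
      have h6 : f ≤ m₀ * q := Nat.le_of_dvd (by positivity) h2
      have h7 : m₀ * q ≤ m₀ * Q := Nat.mul_le_mul_left _ hq.2
      exact ⟨⟨by omega, by omega⟩, h2⟩
    · intro f _ _
      exact mul_nonneg (by positivity) (hS f)
  refine h1.trans ?_
  rw [sum_comm, mul_sum]
  apply sum_le_sum
  intro f hf
  rw [mem_Icc] at hf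
  rw [← sum_filter, ← sum_mul]
  have h2 := inner_sum c hc m₀ Q f hm (by omega)
  calc _ ≤ ((m₀ * (c ^ f.primeFactors.card / (Nat.totient f : ℝ))) *
        ∑ e ∈ Icc 1 Q, c ^ e.primeFactors.card / (Nat.totient e : ℝ)) * S f :=
        mul_le_mul_of_nonneg_right h2 (hS f)
    _ = _ := by ring

/-- module B2 of TEAM-MT -/
theorem bvAP_main (h : BVTotal) : BVAP := by
  intro m₀ hm c hc δ hδ A
  have hc0 : (0:ℝ) ≤ c := by linarith
  obtain ⟨k, hk⟩ := sum_pow_omega_div_totient c hc
  obtain ⟨C, hC, hω⟩ := pow_omega_le c hc (1 / 4) (by norm_num)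
  obtain ⟨X₁, hX₁⟩ := h c hc (δ / 2) (by positivity) (A + 2 ^ k + 1)
  have hm0 : (0:ℝ) < m₀ := by exact_mod_cast hm
  have hlog : Filter.Tendsto Real.log Filter.atTop Filter.atTop := Real.tendsto_log_atTop
  have hpow : Filter.Tendsto (fun X : ℝ => X ^ (δ / 2)) Filter.atTop Filter.atTop :=
    tendsto_rpow_atTop (by positivity)
  have ev : ∀ᶠ X : ℝ in Filter.atTop, ∀ r : ℕ → ℕ,
      ∑ q ∈ (Icc 1 ⌊X ^ (1 / 2 - δ)⌋₊).filter (fun q => Squarefree q ∧ (r q).Coprime (m₀ * q)),
      c ^ q.primeFactors.card *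
        |psiLogAP X (m₀ * q) (r q) - psiLog1 X / (Nat.totient (m₀ * q) : ℝ)|
      ≤ X / (Real.log X) ^ A := by
    filter_upwards [Filter.eventually_ge_atTop X₁, Filter.eventually_ge_atTop (4:ℝ),
      hlog.eventually_ge_atTop 1, hlog.eventually_ge_atTop (2 * m₀ * 2 ^ (2 ^ k)),
      hpow.eventually_ge_atTop (m₀ : ℝ), ev_log (8 * C) (3 + A) (1 / 4) (by norm_num)] with
      X h1 h2 h3 h4 h5 h6 r
    have hX0 : 0 < X := by linarith
    have hX1 : 1 ≤ X := by linarith
    set L := Real.log X with hL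
    have hL0 : 0 < L := by linarith
    have hXA : 0 < X / L ^ A := by positivity
    set Q := ⌊X ^ (1 / 2 - δ)⌋₊ with hQ
    have hQle : (Q : ℝ) ≤ X ^ (1 / 2 - δ) := Nat.floor_le (by positivity)
    have hQX : (Q : ℝ) ≤ X ^ ((1:ℝ) / 2) :=
      hQle.trans (Real.rpow_le_rpow_of_exponent_le hX1 (by linarith))
    have hQX1 : (Q : ℝ) ≤ X := by
      refine hQX.trans ?_
      calc X ^ ((1:ℝ) / 2) ≤ X ^ (1:ℝ) := Real.rpow_le_rpow_of_exponent_le hX1 (by norm_num)
        _ = X := Real.rpow_one X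
    have hmQ : ((m₀ * Q : ℕ) : ℝ) ≤ X ^ (1 / 2 - δ / 2) := by
      push_cast
      calc (m₀ : ℝ) * Q ≤ X ^ (δ / 2) * X ^ (1 / 2 - δ) :=
            mul_le_mul h5 hQle (by positivity) (by positivity)
        _ = X ^ (1 / 2 - δ / 2) := by
            rw [← Real.rpow_add hX0]; congr 1; ring
    have hmQX : ((m₀ * Q : ℕ) : ℝ) ≤ X := by
      refine hmQ.trans ?_
      calc X ^ (1 / 2 - δ / 2) ≤ X ^ (1:ℝ) := Real.rpow_le_rpow_of_exponent_le hX1 (by linarith)
        _ = X := Real.rpow_one X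
    -- pass to all q
    have s1 : ∑ q ∈ (Icc 1 Q).filter (fun q => Squarefree q ∧ (r q).Coprime (m₀ * q)),
        c ^ q.primeFactors.card *
          |psiLogAP X (m₀ * q) (r q) - psiLog1 X / (Nat.totient (m₀ * q) : ℝ)| ≤
        ∑ q ∈ Icc 1 Q, c ^ q.primeFactors.card *
          ((1 / (Nat.totient (m₀ * q) : ℝ)) * (∑ f ∈ (m₀ * q).divisors.filter (fun f => f ≠ 1),
            ∑ ψ ∈ Prim f, ‖psiLog X f ψ‖) +
          2 * ((m₀ * q).primeFactors.card * L ^ 2)) := by
      have hnn : ∀ q : ℕ, 0 ≤ c ^ q.primeFactors.card *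
          ((1 / (Nat.totient (m₀ * q) : ℝ)) * (∑ f ∈ (m₀ * q).divisors.filter (fun f => f ≠ 1),
            ∑ ψ ∈ Prim f, ‖psiLog X f ψ‖) +
          2 * ((m₀ * q).primeFactors.card * L ^ 2)) := by
        intro q
        apply mul_nonneg (by positivity)
        apply add_nonneg _ (by positivity)
        apply mul_nonneg (by positivity)
        exact sum_nonneg fun _ _ => sum_nonneg fun _ _ => norm_nonneg _
      refine le_trans (sum_le_sum (g := fun q => c ^ q.primeFactors.card *
          ((1 / (Nat.totient (m₀ * q) : ℝ)) * (∑ f ∈ (m₀ * q).divisors.filter (fun f => f ≠ 1),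
            ∑ ψ ∈ Prim f, ‖psiLog X f ψ‖) +
          2 * ((m₀ * q).primeFactors.card * L ^ 2))) ?_)
        (sum_le_sum_of_subset_of_nonneg (filter_subset _ _) (fun q _ _ => hnn q))
      intro q hq
      rw [mem_filter, mem_Icc] at hq
      obtain ⟨⟨hq1, hq2⟩, _, hq4⟩ := hq
      apply mul_le_mul_of_nonneg_left _ (by positivity)
      exact disc_le X hX1 (m₀ * q) (r q) (Nat.mul_pos hm hq1) hq4
    refine s1.trans ?_
    simp_rw [mul_add]
    rw [sum_add_distrib]
    -- main part
    have s2 : ∑ q ∈ Icc 1 Q, c ^ q.primeFactors.card * ((1 / (Nat.totient (m₀ * q) : ℝ)) *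
        ∑ f ∈ (m₀ * q).divisors.filter (fun f => f ≠ 1), ∑ ψ ∈ Prim f, ‖psiLog X f ψ‖) ≤
        (1 / 2) * (X / L ^ A) := by
      refine (interchange c hc m₀ Q hm (fun f => ∑ ψ ∈ Prim f, ‖psiLog X f ψ‖)
        (fun f => sum_nonneg fun _ _ => norm_nonneg _)).trans ?_
      have e1 : ∑ f ∈ Icc 2 (m₀ * Q), (c ^ f.primeFactors.card / (Nat.totient f : ℝ)) *
          ∑ ψ ∈ Prim f, ‖psiLog X f ψ‖ ≤ X / L ^ (A + 2 ^ k + 1) := by
        refine le_trans ?_ (hX₁ X h1)
        apply sum_le_sum_of_subset_of_nonneg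
        · apply Icc_subset_Icc_right
          exact Nat.le_floor hmQ
        · intro f _ _
          apply mul_nonneg (by positivity)
          exact sum_nonneg fun _ _ => norm_nonneg _
      have e2 : ∑ e ∈ Icc 1 Q, c ^ e.primeFactors.card / (Nat.totient e : ℝ) ≤
          2 ^ (2 ^ k) * L ^ (2 ^ k) := by
        refine (hk Q).trans ?_
        rw [← mul_pow]
        have h7 := log_natCast_le Q X hX1 hQX1
        have h8 := Real.log_natCast_nonneg Q
        apply pow_le_pow_left₀ (by linarith)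
        linarith
      have e3 : 0 ≤ ∑ e ∈ Icc 1 Q, c ^ e.primeFactors.card / (Nat.totient e : ℝ) :=
        sum_nonneg fun _ _ => by positivity
      calc _ ≤ (m₀ * (2 ^ (2 ^ k) * L ^ (2 ^ k))) * (X / L ^ (A + 2 ^ k + 1)) := by
            apply mul_le_mul _ e1
            · apply sum_nonneg
              intro f _
              apply mul_nonneg (by positivity)
              exact sum_nonneg fun _ _ => norm_nonneg _
            · positivity
            · exact mul_le_mul_of_nonneg_left e2 hm0.le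
        _ = (1 / 2) * ((2 * m₀ * 2 ^ (2 ^ k)) / L) * (X / L ^ A) := by
            rw [pow_add, pow_add, pow_one]
            field_simp
        _ ≤ (1 / 2) * 1 * (X / L ^ A) := by
            gcongr
            rw [div_le_one hL0]
            exact h4
        _ = _ := by ring
    -- error part
    have s3 : ∑ q ∈ Icc 1 Q, c ^ q.primeFactors.card *
        (2 * ((m₀ * q).primeFactors.card * L ^ 2)) ≤ (1 / 2) * (X / L ^ A) := by
      have e1 : ∀ q ∈ Icc 1 Q, c ^ q.primeFactors.card *
          (2 * ((m₀ * q).primeFactors.card * L ^ 2)) ≤ 4 * C * L ^ 3 * X ^ ((1:ℝ) / 8) := by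
        intro q hq
        rw [mem_Icc] at hq
        have hq0 : (0:ℝ) < q := by
          have : 0 < q := by omega
          exact_mod_cast this
        have hqX : (q:ℝ) ≤ X ^ ((1:ℝ) / 2) := by
          refine le_trans ?_ hQX
          exact_mod_cast hq.2
        have h7 : c ^ q.primeFactors.card ≤ C * X ^ ((1:ℝ) / 8) := by
          refine (hω q hq.1).trans ?_
          apply mul_le_mul_of_nonneg_left _ hC.le
          calc (q:ℝ) ^ ((1:ℝ) / 4) ≤ (X ^ ((1:ℝ) / 2)) ^ ((1:ℝ) / 4) :=
                Real.rpow_le_rpow hq0.le hqX (by norm_num)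
            _ = X ^ ((1:ℝ) / 8) := by
                rw [← Real.rpow_mul hX0.le]; norm_num
        have h8 : ((m₀ * q).primeFactors.card : ℝ) ≤ 2 * L := by
          refine (omega_le_log (m₀ * q) (Nat.mul_pos hm hq.1)).trans ?_
          have : ((m₀ * q : ℕ) : ℝ) ≤ X := by
            refine le_trans ?_ hmQX
            exact_mod_cast Nat.mul_le_mul_left m₀ hq.2
          have := log_natCast_le (m₀ * q) X hX1 this
          linarith
        calc c ^ q.primeFactors.card * (2 * ((m₀ * q).primeFactors.card * L ^ 2)) ≤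
            (C * X ^ ((1:ℝ) / 8)) * (2 * ((2 * L) * L ^ 2)) := by
              apply mul_le_mul h7 _ (by positivity) (by positivity)
              apply mul_le_mul_of_nonneg_left _ (by norm_num)
              exact mul_le_mul_of_nonneg_right h8 (by positivity)
          _ = _ := by ring
      calc _ ≤ ∑ q ∈ Icc 1 Q, 4 * C * L ^ 3 * X ^ ((1:ℝ) / 8) := sum_le_sum e1
        _ = (Q:ℝ) * (4 * C * L ^ 3 * X ^ ((1:ℝ) / 8)) := by
            rw [sum_const, nsmul_eq_mul, Nat.card_Icc]; simp
        _ ≤ X ^ ((1:ℝ) / 2) * (4 * C * L ^ 3 * X ^ ((1:ℝ) / 8)) :=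
            mul_le_mul_of_nonneg_right hQX (by positivity)
        _ = 4 * C * L ^ 3 * (X ^ ((1:ℝ) / 2) * X ^ ((1:ℝ) / 8)) := by ring
        _ ≤ 4 * C * L ^ 3 * (X / X ^ ((1:ℝ) / 4)) := by
            apply mul_le_mul_of_nonneg_left _ (by positivity)
            rw [← Real.rpow_add hX0]
            have : X / X ^ ((1:ℝ) / 4) = X ^ (1 - (1:ℝ) / 4) := by
              rw [Real.rpow_sub hX0, Real.rpow_one]
            rw [this]
            apply Real.rpow_le_rpow_of_exponent_le hX1
            norm_num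
        _ = (1 / 2) * ((8 * C * L ^ (3 + A)) / X ^ ((1:ℝ) / 4)) * (X / L ^ A) := by
            have : X ^ ((1:ℝ) / 4) ≠ 0 := by positivity
            rw [pow_add]
            field_simp
            ring
        _ ≤ (1 / 2) * 1 * (X / L ^ A) := by
            gcongr
            rw [div_le_one (by positivity)]
            exact h6
        _ = _ := by ring
    linarith
  rw [Filter.eventually_atTop] at ev
  exact ev

end Pool.Agent.H398R2.BV

namespace Pool.Agent.H398R2

open Pool.Agent.H410R2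

theorem bvAP (h : BVTotal) : BVAP := BV.bvAP_main h

end Pool.Agent.H398R2
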